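import Mathlib
import Pool.Agent.T6.H79.ABC.Count

/-!
# The number of violations of the abc inequality among all algebraic numbers of a given degree

For an algebraic number `x` of degree `n` let `K = ℚ(x)`, and compute the height and the radical of
the point `(x : 1 - x : -1)` over `K`. For every `n ≥ 2` and `0 < t ≤ 3` the number of the `x` with
height at most `B` and `rad ≤ t h + c₀` has exact exponent `n (n - 2 + t)`.
-/

set_option autoImplicit false

namespace Pool.Agent.Results.MP_a793bb_nt.AlgebraicNumbersExponent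

open NumberField IsDedekindDomain Filter Topology
open scoped IntermediateField

/-- the field generated by an algebraic number is a number field -/
instance (x : AlgebraicClosure ℚ) : NumberField ℚ⟮x⟯ := Pool.Agent.T6.H79.ABC.nf x

section Defs

variable {K : Type} [Field K] [NumberField K]

/-- the height `h(P)` of the point `P` with coordinates `x` -/
noncomputable def height (x : Fin 3 → K) : ℝ :=
  (∑ w : InfinitePlace K, (w.mult : ℝ) * Real.log (max (w (x 0)) (max (w (x 1)) (w (x 2)))) +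
    ∑ᶠ v : HeightOneSpectrum (𝓞 K), Real.log
      (max (FinitePlace.mk v (x 0)) (max (FinitePlace.mk v (x 1)) (FinitePlace.mk v (x 2))))) /
    (Module.finrank ℚ K : ℝ)

/-- the radical of the point `P` with coordinates `x`: the sum of `log N(v) / d` over the primes
`v` at which the valuations of the coordinates are not all equal -/
noncomputable def rad (x : Fin 3 → K) : ℝ :=
  (∑ᶠ (v : HeightOneSpectrum (𝓞 K)) (_ : ¬ (FinitePlace.mk v (x 0) = FinitePlace.mk v (x 1) ∧
      FinitePlace.mk v (x 1) = FinitePlace.mk v (x 2))),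
    Real.log (Ideal.absNorm v.asIdeal : ℝ)) / (Module.finrank ℚ K : ℝ)

end Defs

/-- the point `(x : 1 - x : -1)` over the field `ℚ(x)` -/
noncomputable def point (x : AlgebraicClosure ℚ) : Fin 3 → ℚ⟮x⟯ :=
  ![IntermediateField.AdjoinSimple.gen ℚ x, 1 - IntermediateField.AdjoinSimple.gen ℚ x, -1]

/-- the algebraic numbers `x ≠ 0, 1` of degree `n` whose point `P = (x : 1 - x : -1)` over `ℚ(x)`
has `exp h(P) ≤ B` and `rad(P) ≤ t h(P) + c₀` -/
def Exceptions (n : ℕ) (t c₀ B : ℝ) : Set (AlgebraicClosure ℚ) :=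
  {x | x ≠ 0 ∧ x ≠ 1 ∧ Module.finrank ℚ ℚ⟮x⟯ = n ∧ Real.exp (height (point x)) ≤ B ∧
    rad (point x) ≤ t * height (point x) + c₀}

/-- Let `n ≥ 2`, `0 < t ≤ 3` and `c₀` real, and let `N(B)` be the number of algebraic numbers
`x ≠ 0, 1` of degree `n` for which the point `P = (x : 1 - x : -1)` over the field `ℚ(x)` has
height `exp h(P) ≤ B` and `rad(P) ≤ t h(P) + c₀`.
(1) `N(B)` is finite and `N(B) ≤ C_δ B ^ (n (n - 2 + t) + δ)` for every `δ > 0`.
(2) `N(B) ≥ c B ^ (n (n - 2 + t))` for all large `B`, with `c > 0`.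
(3) `log N(B) / log B → n (n - 2 + t)`. -/
theorem result : ∀ n : ℕ, 2 ≤ n → ∀ t : ℝ, 0 < t → t ≤ 3 → ∀ c₀ : ℝ,
    (∀ δ : ℝ, 0 < δ → ∃ C : ℝ, ∀ B : ℝ, 1 ≤ B → (Exceptions n t c₀ B).Finite ∧
      ((Exceptions n t c₀ B).ncard : ℝ) ≤ C * B ^ ((n : ℝ) * (n - 2 + t) + δ)) ∧
    (∃ c B₀ : ℝ, 0 < c ∧ ∀ B : ℝ, B₀ ≤ B →
      c * B ^ ((n : ℝ) * (n - 2 + t)) ≤ ((Exceptions n t c₀ B).ncard : ℝ)) ∧
    Tendsto (fun B : ℝ => Real.log ((Exceptions n t c₀ B).ncard : ℝ) / Real.log B) atTop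
      (𝓝 ((n : ℝ) * (n - 2 + t))) := by
  intro n hn t ht0 ht3 c₀
  exact ⟨fun δ hδ => Pool.Agent.T6.H79.ABC.upper n hn ht0.le c₀ hδ,
    Pool.Agent.T6.H79.ABC.lower n hn ht0 ht3 c₀,
    Pool.Agent.T6.H79.ABC.exponent n hn ht0 ht3 c₀⟩

end Pool.Agent.Results.MP_a793bb_nt.AlgebraicNumbersExponent
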