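import Mathlib
import Pool.Agent.T6.H44.HOE.Low

/-!
# The number of exceptions of bounded height to the abc inequality, over every number field

For `2 ≤ t ≤ 3` the number of points `(a : b : c)` over a number field `K` of degree `d` with
`a + b + c = 0`, `abc ≠ 0`, height at most `B` and `rad_T ≤ t h + c₀` has exact exponent
`d (t - 1)`, and for all `1 < t ≤ 3` it is at least of the order `B ^ (d (t - 1))`.
-/

set_option autoImplicit false

namespace Pool.Agent.Results.MP_a793bb_nt.HeightOrderedExponent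

open NumberField IsDedekindDomain Filter Topology

variable {K : Type} [Field K] [NumberField K]

/-- the height `h(P)` of the point `P` with coordinates `x` -/
noncomputable def height (x : Fin 3 → K) : ℝ :=
  (∑ w : InfinitePlace K, (w.mult : ℝ) * Real.log (max (w (x 0)) (max (w (x 1)) (w (x 2)))) +
    ∑ᶠ v : HeightOneSpectrum (𝓞 K), Real.log
      (max (FinitePlace.mk v (x 0)) (max (FinitePlace.mk v (x 1)) (FinitePlace.mk v (x 2))))) /
    (Module.finrank ℚ K : ℝ)

/-- the radical of the point `P` with coordinates `x`, without the primes of `T`: the sum of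
`log N(v) / d` over the primes `v ∉ T` at which the valuations of the coordinates are not all
equal -/
noncomputable def rad (T : Set (HeightOneSpectrum (𝓞 K))) (x : Fin 3 → K) : ℝ :=
  (∑ᶠ (v : HeightOneSpectrum (𝓞 K)) (_ : v ∉ T ∧
      ¬ (FinitePlace.mk v (x 0) = FinitePlace.mk v (x 1) ∧
        FinitePlace.mk v (x 1) = FinitePlace.mk v (x 2))),
    Real.log (Ideal.absNorm v.asIdeal : ℝ)) / (Module.finrank ℚ K : ℝ)

/-- the points `P = (a : b : c)` with `a + b + c = 0`, `abc ≠ 0`, `exp h(P) ≤ B` and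
`rad_T(P) ≤ t h(P) + c₀` -/
def Exceptions (T : Set (HeightOneSpectrum (𝓞 K))) (t c₀ B : ℝ) :
    Set (Projectivization K (Fin 3 → K)) :=
  {P | ∃ (x : Fin 3 → K) (hx : x ≠ 0), P = Projectivization.mk K x hx ∧ x 0 + x 1 + x 2 = 0 ∧
    x 0 * x 1 * x 2 ≠ 0 ∧ Real.exp (height x) ≤ B ∧ rad T x ≤ t * height x + c₀}

/-- Let `K` be a number field of degree `d`, `T` a finite set of primes of `K` and `c₀` real. Let
`N(B)` be the number of points `P = (a : b : c)` over `K` with `a + b + c = 0`, `abc ≠ 0`, height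
`exp h(P) ≤ B` and `rad_T(P) ≤ t h(P) + c₀`.
(1) For `1 < t ≤ 3` there is `c > 0` with `N(B) ≥ c B ^ (d (t - 1))` for all large `B`.
(2) For `2 ≤ t ≤ 3`, `N(B)` is finite and `log N(B) / log B → d (t - 1)`. -/
theorem result : ∀ (K : Type) [Field K] [NumberField K] (T : Set (HeightOneSpectrum (𝓞 K))),
    T.Finite → ∀ t c₀ : ℝ,
      (1 < t → t ≤ 3 → ∃ c B₀ : ℝ, 0 < c ∧ ∀ B : ℝ, B₀ ≤ B →
        c * B ^ ((Module.finrank ℚ K : ℝ) * (t - 1)) ≤ ((Exceptions T t c₀ B).ncard : ℝ)) ∧
      (2 ≤ t → t ≤ 3 → (∀ B : ℝ, 1 ≤ B → (Exceptions T t c₀ B).Finite) ∧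
        Tendsto (fun B : ℝ => Real.log ((Exceptions T t c₀ B).ncard : ℝ) / Real.log B) atTop
          (𝓝 ((Module.finrank ℚ K : ℝ) * (t - 1)))) := by
  intro K _ _ T hT t c₀
  refine ⟨fun h1 h3 => Pool.Agent.T6.H44.HOE.lower T hT h1 h3, fun h2 h3 => ⟨fun B hB => ?_,
    Pool.Agent.T6.H44.HOE.exponent T hT h2 h3⟩⟩
  obtain ⟨_, hC⟩ := Pool.Agent.Results.MP_a793bb_nt.ExceptionsAtEveryLevel.result K T hT t c₀ 1
    (by linarith) h3 one_pos
  exact (hC B hB).1

end Pool.Agent.Results.MP_a793bb_nt.HeightOrderedExponent
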