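import Mathlib
import Pool.Agent.T6.H44.WinK.Cnt

/-!
# The abc inequality without exceptions in windows of heights, for all number fields at once

Let `f_n`, `n = 0, 1, 2, …`, be positive functions on `(a, ∞)`, `a ≥ 0`, such that `f_n(α) / α` is
nondecreasing, and such that the sequence `f_n(α)` has exponent of convergence at most `τ` for each
`α > a`: for instance `f_n(α) = v_n α`, `f_n(α) = α ^ n`, or the orbit of `α` under a map. There is
one small set `E` of parameters `α` such that for each `α > a` outside `E` the following holds for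
ALL number fields `K`, of whatever degree, and all finite sets `T` of primes of `K`: all but
finitely many windows around the numbers `f_n(α)` contain the height `H_K(P) = exp(d h(P))` of no
point `P = (a : b : c)` over `K`, `a + b + c = 0`, `abc ≠ 0`, violating the abc inequality. The
inequality is proved there without the `ε`, and without the primes of `T`.
-/

set_option autoImplicit false

namespace Pool.Agent.Results.MP_a793bb_nt.HeightWindows

open NumberField IsDedekindDomain

/-- the height `h(P)` of the point `P` with coordinates `x` -/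
noncomputable def height {K : Type} [Field K] [NumberField K] (x : Fin 3 → K) : ℝ :=
  (∑ w : InfinitePlace K, (w.mult : ℝ) * Real.log (max (w (x 0)) (max (w (x 1)) (w (x 2)))) +
    ∑ᶠ v : HeightOneSpectrum (𝓞 K), Real.log
      (max (FinitePlace.mk v (x 0)) (max (FinitePlace.mk v (x 1)) (FinitePlace.mk v (x 2))))) /
    (Module.finrank ℚ K : ℝ)

/-- the radical of the point `P` with coordinates `x`, without the primes of `T`: the sum of
`log N(v) / d` over the primes `v ∉ T` at which the valuations of the coordinates are not all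
equal -/
noncomputable def rad {K : Type} [Field K] [NumberField K] (T : Set (HeightOneSpectrum (𝓞 K)))
    (x : Fin 3 → K) : ℝ :=
  (∑ᶠ (v : HeightOneSpectrum (𝓞 K)) (_ : v ∉ T ∧
      ¬ (FinitePlace.mk v (x 0) = FinitePlace.mk v (x 1) ∧
        FinitePlace.mk v (x 1) = FinitePlace.mk v (x 2))),
    Real.log (Ideal.absNorm v.asIdeal : ℝ)) / (Module.finrank ℚ K : ℝ)

/-- the exponent, a continuous piecewise linear function on `(0, 3]`; `F 1 = 20 / 37` -/
noncomputable def F (t : ℝ) : ℝ :=
  if t ≤ 7 / 15 then 4 * t / 7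
  else if t ≤ 1 then (19 * t + 1) / 37
  else if t ≤ 9 / 7 then 5 * (9 * t - 1) / 74
  else if t ≤ 3 / 2 then 5 * t / 9
  else if t ≤ 5 / 3 then t - 2 / 3
  else if t ≤ 2 then 1
  else t - 1

/-- the functions `f n` are positive on `(a, ∞)`, `a ≥ 0`, and `f n x / x` is nondecreasing there -/
def Starshaped (a : ℝ) (f : ℕ → ℝ → ℝ) : Prop :=
  0 ≤ a ∧ ∀ n : ℕ, ∀ x y : ℝ, a < x → x ≤ y → 0 < f n x ∧ f n x / x ≤ f n y / y

/-- for each `x > a` the exponent of convergence of the sequence `f n x` is at most `τ` -/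
def ExpLe (a : ℝ) (f : ℕ → ℝ → ℝ) (τ : ℝ) : Prop :=
  ∀ x : ℝ, a < x → ∀ t : ℝ, τ < t → Summable (fun n : ℕ => (f n x) ^ (-t))

/-- **Theorem.** Let `f` be starshaped functions on `(a, ∞)` of exponent of convergence at most
`τ ≥ 0` and `θ < 1`. The number fields `K` are those inside the algebraic closure of `ℚ`; `d` is the
degree of `K`.
(1) For `0 < t ≤ 3` there is a set `E` of Hausdorff dimension at most `(F(t) + τ) / (1 - θ)` such
that for each `α > a` outside `E`, for all number fields `K`, all finite sets `T` of primes of `K`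
and all `c₀`, `c`, for all but finitely many `n`, ALL points `P = (a : b : c)` over `K` with
`a + b + c = 0`, `abc ≠ 0` and `|exp (d h(P)) - f_n(α)| ≤ c f_n(α) ^ θ` satisfy
`t h(P) + c₀ < rad_T(P)`. For `t = 1` this is the abc inequality with `ε = 0` and `F(1) = 20 / 37`.
(2) There is a set `E` of dimension at most `τ / (1 - θ)` such that for each `α > a` outside `E`
there is `κ` such that for all number fields `K`, all `T` and `c` there is `C` with
`h(P) ≤ κ rad_T(P) + C` for ALL these points, for all `n`.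
(3) The functions `v_n x`, `v_n > 0`, are starshaped on `(0, ∞)`, of exponent `τ` if `v` has
exponent of convergence at most `τ`; the functions `x ^ (v_n)`, `v_n ≥ 1`, are starshaped on
`(1, ∞)`, of exponent `0` if the sums of `exp (-t v_n)` converge for `t > 0`; and the iterates of a
map `g` with `g(x) > x` for `x > a` and `g(x) / x` nondecreasing are starshaped on `(a, ∞)`, of
exponent `0`. -/
theorem result :
    (∀ (a : ℝ) (f : ℕ → ℝ → ℝ) (τ θ : ℝ), Starshaped a f → 0 ≤ τ → ExpLe a f τ → θ < 1 →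
      (∀ t : ℝ, 0 < t → t ≤ 3 →
        ∃ E : Set ℝ, dimH E ≤ ENNReal.ofReal ((F t + τ) / (1 - θ)) ∧
          ∀ α : ℝ, a < α → α ∉ E →
            ∀ (K : IntermediateField ℚ (AlgebraicClosure ℚ)) [NumberField K]
              (T : Set (HeightOneSpectrum (𝓞 K))), T.Finite → ∀ c₀ c : ℝ,
              ∃ n₀ : ℕ, ∀ n : ℕ, n₀ ≤ n → ∀ x : Fin 3 → K,
                x 0 + x 1 + x 2 = 0 → x 0 * x 1 * x 2 ≠ 0 →
                |Real.exp ((Module.finrank ℚ K : ℝ) * height x) - f n α| ≤ c * (f n α) ^ θ →
                  t * height x + c₀ < rad T x) ∧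
      ∃ E : Set ℝ, dimH E ≤ ENNReal.ofReal (τ / (1 - θ)) ∧
        ∀ α : ℝ, a < α → α ∉ E → ∃ κ : ℝ,
          ∀ (K : IntermediateField ℚ (AlgebraicClosure ℚ)) [NumberField K]
            (T : Set (HeightOneSpectrum (𝓞 K))), T.Finite → ∀ c : ℝ,
            ∃ C : ℝ, ∀ (n : ℕ) (x : Fin 3 → K), x 0 + x 1 + x 2 = 0 → x 0 * x 1 * x 2 ≠ 0 →
              |Real.exp ((Module.finrank ℚ K : ℝ) * height x) - f n α| ≤ c * (f n α) ^ θ →
                height x ≤ κ * rad T x + C) ∧
    (∀ (v : ℕ → ℝ) (τ : ℝ), (∀ n, 0 < v n) →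
      (∀ t : ℝ, τ < t → Summable (fun n : ℕ => (v n) ^ (-t))) →
      Starshaped 0 (fun n x => v n * x) ∧ ExpLe 0 (fun n x => v n * x) τ) ∧
    (∀ v : ℕ → ℝ, (∀ n, 1 ≤ v n) →
      (∀ t : ℝ, 0 < t → Summable fun n : ℕ => Real.exp (-(t * v n))) →
      Starshaped 1 (fun n x => x ^ (v n)) ∧ ExpLe 1 (fun n x => x ^ (v n)) 0) ∧
    (∀ (a : ℝ) (g : ℝ → ℝ), 0 ≤ a → (∀ x y : ℝ, a < x → x ≤ y → g x / x ≤ g y / y) →
      (∀ x : ℝ, a < x → x < g x) →
      Starshaped a (fun n x => g^[n] x) ∧ ExpLe a (fun n x => g^[n] x) 0) := by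
  refine ⟨fun a f τ θ hf hτ hE hθ => ⟨fun t ht0 ht3 => ?_, ?_⟩, Pool.Agent.R482.ST.ex_mul,
    Pool.Agent.R482.ST.ex_pow, Pool.Agent.R482.ST.ex_orbit⟩
  · exact Pool.Agent.T6.H44.WinK.win_all hf hτ hE hθ ht0 ht3
  · exact Pool.Agent.T6.H44.WinK.weak_all hf hτ hE hθ

end Pool.Agent.Results.MP_a793bb_nt.HeightWindows
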