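import Mathlib
import Pool.Agent.T6.H44.DIV.Fin

/-!
# The least radical of a point at which given primes are bad

For every number field `K`, for almost all ideals `n` of the ring of integers (with a power saving)
the least radical of a point `P = (a : b : c)` over `K`, of whatever height, with `a + b + c = 0`,
`abc ≠ 0`, such that all prime divisors of `n` lie in `I_K(P)`, is `max (N n ^ (3/2), N n * P(n))`
up to a factor `N n ^ (± ε)`, where `N n` is the norm and `P(n)` the largest norm of a prime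
divisor of `n`.
-/

set_option autoImplicit false

namespace Pool.Agent.Results.MP_a793bb_nt.LeastRadical

open NumberField IsDedekindDomain

variable {K : Type} [Field K] [NumberField K]

/-- the prime `v` lies in `I_K(P)` for the point `P` with coordinates `x`: the valuations of the
three coordinates at `v` are not all equal -/
def InI (v : HeightOneSpectrum (𝓞 K)) (x : Fin 3 → K) : Prop :=
  ¬ (FinitePlace.mk v (x 0) = FinitePlace.mk v (x 1) ∧
    FinitePlace.mk v (x 1) = FinitePlace.mk v (x 2))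

/-- the radical `rad(P)` of the point `P` with coordinates `x` -/
noncomputable def rad (x : Fin 3 → K) : ℝ :=
  (∑ᶠ (v : HeightOneSpectrum (𝓞 K)) (_ : InI v x), Real.log (Ideal.absNorm v.asIdeal : ℝ)) /
    (Module.finrank ℚ K : ℝ)

/-- `x` are coordinates `(a, b, c)` with `a + b + c = 0` and `abc ≠ 0` -/
def Point (x : Fin 3 → K) : Prop := x 0 + x 1 + x 2 = 0 ∧ x 0 * x 1 * x 2 ≠ 0

/-- all prime divisors of the ideal `n` lie in `I_K(P)` -/
def Divides (n : Ideal (𝓞 K)) (x : Fin 3 → K) : Prop :=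
  ∀ v : HeightOneSpectrum (𝓞 K), v.asIdeal ∣ n → InI v x

/-- the largest norm of a prime divisor of `n` (`0` if `n = 1`) -/
noncomputable def largest (n : Ideal (𝓞 K)) : ℕ :=
  sSup {q : ℕ | ∃ v : HeightOneSpectrum (𝓞 K), v.asIdeal ∣ n ∧ q = Ideal.absNorm v.asIdeal}

/-- the larger of `N n ^ (3/2)` and `N n * P(n)` -/
noncomputable def level (n : Ideal (𝓞 K)) : ℝ :=
  max ((Ideal.absNorm n : ℝ) ^ (3 / 2 : ℝ)) ((Ideal.absNorm n : ℝ) * (largest n : ℝ))

/-- the least radical of the points with all prime divisors of `n` in `I_K(P)` is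
`(log (level n) ± ε log (N n)) / d` -/
def Regular (ε : ℝ) (n : Ideal (𝓞 K)) : Prop :=
  (∀ x : Fin 3 → K, Point x → Divides n x →
    (Real.log (level n) - ε * Real.log (Ideal.absNorm n : ℝ)) / (Module.finrank ℚ K : ℝ) < rad x) ∧
  ∃ x : Fin 3 → K, Point x ∧ Divides n x ∧
    rad x ≤ (Real.log (level n) + ε * Real.log (Ideal.absNorm n : ℝ)) / (Module.finrank ℚ K : ℝ)

open Pool.Agent.TH876.Loc Pool.Agent.H691R3 Pool.Agent.T6.H44.DIV

theorem inI_iff {x : Fin 3 → K} (hx : Point x) (v : HeightOneSpectrum (𝓞 K)) :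
    InI v x ↔ v ∈ sp (x 0 / x 1) := by
  obtain ⟨hs, hne⟩ := hx
  have g0 : x 0 ≠ 0 := fun h => hne (by rw [h]; ring)
  have g1 : x 1 ≠ 0 := fun h => hne (by rw [h]; ring)
  have g2 : x 2 ≠ 0 := fun h => hne (by rw [h]; ring)
  have e : x 0 / x 1 + 1 = -(x 2 / x 1) := by
    field_simp
    linear_combination hs
  have hPt : Pt (x 0 / x 1) := ⟨div_ne_zero g0 g1, by rw [e]; exact neg_ne_zero.2 (div_ne_zero g2 g1)⟩
  rw [mem_sp hPt, e, (fv v).map_neg, map_div₀, map_div₀, div_eq_one_iff_eq ((fv v).pos g1).ne',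
    div_eq_one_iff_eq ((fv v).pos g1).ne']
  have h1 : ∀ z : K, FinitePlace.mk v z = fv v z := fun z => rfl
  unfold InI
  rw [h1, h1, h1, eq_comm (a := fv v (x 1)) (b := fv v (x 2))]

theorem pt_of {x : Fin 3 → K} (hx : Point x) : Pt (x 0 / x 1) := by
  obtain ⟨hs, hne⟩ := hx
  have g0 : x 0 ≠ 0 := fun h => hne (by rw [h]; ring)
  have g1 : x 1 ≠ 0 := fun h => hne (by rw [h]; ring)
  have g2 : x 2 ≠ 0 := fun h => hne (by rw [h]; ring)
  have e : x 0 / x 1 + 1 = -(x 2 / x 1) := by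
    field_simp
    linear_combination hs
  exact ⟨div_ne_zero g0 g1, by rw [e]; exact neg_ne_zero.2 (div_ne_zero g2 g1)⟩

theorem rad_eq {x : Fin 3 → K} (hx : Point x) :
    rad x = Real.log (nn (sp (x 0 / x 1))) / (Module.finrank ℚ K : ℝ) := by
  unfold rad
  congr 1
  rw [Pool.Agent.TH876.KR.log_nn]
  have h1 : (∑ᶠ (v : HeightOneSpectrum (𝓞 K)) (_ : InI v x), Real.log (Ideal.absNorm v.asIdeal : ℝ)) =
      ∑ᶠ (v : HeightOneSpectrum (𝓞 K)) (_ : v ∈ sp (x 0 / x 1)),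
        Real.log (Ideal.absNorm v.asIdeal : ℝ) := by
    refine finsum_congr fun v => ?_
    have h2 : InI v x = (v ∈ sp (x 0 / x 1)) := propext (inI_iff hx v)
    rw [h2]
  rw [h1, finsum_mem_finset_eq_sum]
  rfl

/-- the coordinates of a point -/
def co (y : K) : Fin 3 → K := ![y, 1, -(y + 1)]

theorem co_point {y : K} (hy : Pt y) : Point (co y) := by
  refine ⟨?_, ?_⟩
  · show y + 1 + -(y + 1) = 0
    ring
  · show y * 1 * -(y + 1) ≠ 0
    exact mul_ne_zero (mul_ne_zero hy.1 one_ne_zero) (neg_ne_zero.mpr hy.2)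

theorem co_div (y : K) : co y 0 / co y 1 = y := by
  show y / 1 = y
  rw [div_one]

theorem largest_eq {n : Ideal (𝓞 K)} (hn : n ≠ 0) : largest n = pm (sn n) := by
  classical
  have hset : {q : ℕ | ∃ v : HeightOneSpectrum (𝓞 K), v.asIdeal ∣ n ∧ q = Ideal.absNorm v.asIdeal} =
      (((sn n).image fun v => Ideal.absNorm v.asIdeal : Finset ℕ) : Set ℕ) := by
    ext q
    rw [Finset.mem_coe, Finset.mem_image]
    constructor
    · rintro ⟨v, hv, rfl⟩
      exact ⟨v, (mem_sn hn).2 hv, rfl⟩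
    · rintro ⟨v, hv, rfl⟩
      exact ⟨v, (mem_sn hn).1 hv, rfl⟩
  unfold largest
  rw [hset]
  rcases (sn n).eq_empty_or_nonempty with he | hne
  · rw [he, Finset.image_empty, Finset.coe_empty, Nat.sSup_def ⟨0, fun a ha => absurd ha (by simp)⟩]
    simp [pm]
  · rw [Finset.Nonempty.csSup_eq_max' (hne.image _), Finset.max'_eq_sup', Finset.sup'_eq_sup,
      Finset.sup_image]
    rfl

theorem level_eq {n : Ideal (𝓞 K)} (hn : n ≠ 0) :
    level n = lev (Ideal.absNorm n : ℕ) (pm (sn n)) := by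
  unfold level lev
  rw [largest_eq hn]

theorem regular_iff {ε : ℝ} {n : Ideal (𝓞 K)} (hn : n ≠ 0) : Regular ε n ↔ Reg ε n := by
  have hd : (0 : ℝ) < Module.finrank ℚ K := by exact_mod_cast Module.finrank_pos
  have hN : (0 : ℝ) < (Ideal.absNorm n : ℕ) := by
    exact_mod_cast Nat.pos_of_ne_zero fun h => hn (Ideal.absNorm_eq_zero_iff.1 h)
  have hlev : 0 < lev (Ideal.absNorm n : ℕ) (pm (sn n)) :=
    lt_of_lt_of_le (Real.rpow_pos_of_pos hN _) (le_max_left _ _)
  have e1 : Real.log (level n) - ε * Real.log (Ideal.absNorm n : ℝ) =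
      Real.log (lev (Ideal.absNorm n : ℕ) (pm (sn n)) * ((Ideal.absNorm n : ℕ) : ℝ) ^ (-ε)) := by
    rw [level_eq hn, Real.log_mul hlev.ne' (Real.rpow_pos_of_pos hN _).ne', Real.log_rpow hN]
    ring
  have e2 : Real.log (level n) + ε * Real.log (Ideal.absNorm n : ℝ) =
      Real.log (lev (Ideal.absNorm n : ℕ) (pm (sn n)) * ((Ideal.absNorm n : ℕ) : ℝ) ^ ε) := by
    rw [level_eq hn, Real.log_mul hlev.ne' (Real.rpow_pos_of_pos hN _).ne', Real.log_rpow hN]
  have p1 : 0 < lev (Ideal.absNorm n : ℕ) (pm (sn n)) * ((Ideal.absNorm n : ℕ) : ℝ) ^ (-ε) :=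
    mul_pos hlev (Real.rpow_pos_of_pos hN _)
  have p2 : 0 < lev (Ideal.absNorm n : ℕ) (pm (sn n)) * ((Ideal.absNorm n : ℕ) : ℝ) ^ ε :=
    mul_pos hlev (Real.rpow_pos_of_pos hN _)
  unfold Regular Reg
  rw [e1, e2]
  refine and_congr ⟨fun h y hy hv => ?_, fun h x hx hv => ?_⟩
    ⟨fun ⟨x, hx, hv, h⟩ => ?_, fun ⟨y, hy, hv, h⟩ => ?_⟩
  · have h1 := h (co y) (co_point hy) (fun v hv' => by
      rw [inI_iff (co_point hy), co_div]
      exact hv v hv')
    rw [rad_eq (co_point hy), co_div, div_lt_div_iff_of_pos_right hd] at h1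
    exact (Real.log_lt_log_iff p1 (nn_pos _)).1 h1
  · have h1 := h (x 0 / x 1) (pt_of hx) fun v hv' => (inI_iff hx v).1 (hv v hv')
    rw [rad_eq hx, div_lt_div_iff_of_pos_right hd]
    exact (Real.log_lt_log_iff p1 (nn_pos _)).2 h1
  · rw [rad_eq hx, div_le_div_iff_of_pos_right hd] at h
    exact ⟨x 0 / x 1, pt_of hx, fun v hv' => (inI_iff hx v).1 (hv v hv'),
      (Real.log_le_log_iff (nn_pos _) p2).1 h⟩
  · refine ⟨co y, co_point hy, fun v hv' => ?_, ?_⟩
    · rw [inI_iff (co_point hy), co_div]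
      exact hv v hv'
    · rw [rad_eq (co_point hy), co_div, div_le_div_iff_of_pos_right hd]
      exact (Real.log_le_log_iff (nn_pos _) p2).2 h

/-- **Main theorem.** For every number field `K` and every `0 < ε ≤ 1`, all but
`C X ^ (1 - ε / 1024)` of the ideals `n` of norm at most `X` are regular. -/
theorem result : ∀ (K : Type) [Field K] [NumberField K], ∀ ε : ℝ, 0 < ε → ε ≤ 1 →
    ∃ C : ℝ, ∀ X : ℝ, 1 ≤ X →
      {n : Ideal (𝓞 K) | n ≠ ⊥ ∧ (Ideal.absNorm n : ℝ) ≤ X ∧ ¬ Regular ε n}.Finite ∧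
      (({n : Ideal (𝓞 K) | n ≠ ⊥ ∧ (Ideal.absNorm n : ℝ) ≤ X ∧ ¬ Regular ε n}.ncard : ℕ) : ℝ) ≤
        C * X ^ (1 - ε / 1024) := by
  intro K _ _ ε hε hε1
  obtain ⟨D, hD, h⟩ := regular K ε hε hε1
  refine ⟨D, fun X hX => ?_⟩
  have hfin : {n : Ideal (𝓞 K) | n ≠ ⊥ ∧ (Ideal.absNorm n : ℝ) ≤ X ∧ ¬ Regular ε n}.Finite := by
    refine (Ideal.finite_setOfPred_absNorm_le (S := 𝓞 K) ⌊X⌋₊).subset ?_
    intro n hn
    exact Nat.le_floor hn.2.1
  refine ⟨hfin, ?_⟩
  rw [Set.ncard_eq_toFinset_card _ hfin]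
  refine h X hX hfin.toFinset fun n hn => ?_
  rw [Set.Finite.mem_toFinset] at hn
  obtain ⟨h1, h2, h3⟩ := hn
  exact ⟨h1, h2, fun hr => h3 ((regular_iff h1).2 hr)⟩

end Pool.Agent.Results.MP_a793bb_nt.LeastRadical
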